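import Pool.Agent.helper34.NTA.Spec

set_option autoImplicit false

namespace Pool.Agent.NTA

open Equiv

theorem MIS_cross {D : Type} {σ : Perm D} {a a' b b' : D} (h : Alternate σ a a' b b') :
    σ a ≠ a' ∧ σ a' ≠ a := by
  obtain ⟨k, l, m, hk, hkl, hlm, hne, hl, -⟩ := h
  constructor
  · intro h1
    have h2 : (σ ^ (l - 1)) a = a := by
      have h3 : σ ((σ ^ (l - 1)) a) = σ a := by
        rw [← Perm.mul_apply, ← pow_succ', Nat.sub_add_cancel (by omega), hl, h1]
      exact σ.injective h3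
    exact hne (l - 1) (by omega) (by omega) h2
  · intro h1
    have h2 : (σ ^ (l + 1)) a = a := by
      rw [pow_succ', Perm.mul_apply, hl, h1]
    exact hne (l + 1) (by omega) (by omega) h2

theorem MIS_between {H : Type} [Group H] {s : ZMod 10 → H} {sg : H →* ℤˣ} {hG : Grp H s sg}
    {A : ArcFamily (VV sg)} {pos yp : H → ZMod 10 → ℕ} {σ : Perm A.Ray} (hP : PosData hG A pos yp)
    (hNT : NowhereTangent A σ) (h : H) (c : ZMod 10) (hx : (h, c) ∈ XS s pos) (a e : A.Ray)
    (hgo : Go A σ a e) (he : e.x = Sum.inl h)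
    (hb : (σ a).i < pos h c ∧ pos h c < e.i ∨ e.i < pos h c ∧ pos h c < (σ a).i) : False := by
  obtain ⟨hc, h0, h9, h0', h9'⟩ := hx
  change ¬ KL c at hc
  change 0 < pos h c at h0
  change pos h c < 9 at h9
  change 0 < pos (h * s c) c at h0'
  change pos (h * s c) c < 9 at h9'
  let a₁ : A.Ray := ⟨Sum.inl h, pos h c, true, by
    rw [hP.lenH]; change pos h c + 1 < 10 ∧ 1 ≤ pos h c + 1; omega⟩
  let a₂ : A.Ray := ⟨Sum.inl h, pos h c, false, by
    rw [hP.lenH]; change pos h c + 0 < 10 ∧ 1 ≤ pos h c + 0; omega⟩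
  let b₁ : A.Ray := ⟨Sum.inl (h * s c), pos (h * s c) c, true, by
    rw [hP.lenH]; change pos (h * s c) c + 1 < 10 ∧ 1 ≤ pos (h * s c) c + 1; omega⟩
  let b₂ : A.Ray := ⟨Sum.inl (h * s c), pos (h * s c) c, false, by
    rw [hP.lenH]; change pos (h * s c) c + 0 < 10 ∧ 1 ≤ pos (h * s c) c + 0; omega⟩
  have hne : a₁.x ≠ b₁.x := by
    intro h1
    exact mul_s_ne hG h c (Sum.inl.inj h1).symm
  have hal : Alternate σ a₁ a₂ b₁ b₂ :=
    hNT a₁ a₂ b₁ b₂ rfl rfl rfl rfl rfl rfl rfl rfl hne (hP.eR h c hc)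
  obtain ⟨n1, n2⟩ := MIS_cross hal
  by_cases hlt : pos h c < (σ a).i
  · obtain ⟨r1, r2, r3⟩ := hgo.str a₁ he.symm hb (by
      change true = decide (pos h c < (σ a).i)
      rw [decide_eq_true hlt])
    exact n1 (ArcFamily.Ray.ext r1 r2 r3)
  · obtain ⟨r1, r2, r3⟩ := hgo.str a₂ he.symm hb (by
      change false = decide (pos h c < (σ a).i)
      rw [decide_eq_false hlt])
    exact n2 (ArcFamily.Ray.ext r1 r2 r3)

theorem MIS_side (f : ZMod 10 → ℕ) (c : ZMod 10) (hinj : ∀ c', f c = f c' → c = c')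
    (hbt : ∀ c', ¬ (f c' < f c ∧ f c < f (c' + 1) ∨ f (c' + 1) < f c ∧ f c < f c')) (d d' : ZMod 10)
    (hd : f d < f c) (hd' : f c < f d') : False := by
  have key : ∀ j : ℕ, j ≤ 8 → (f (c + 1 + (j : ZMod 10)) < f c ↔ f (c + 1) < f c) := by
    intro j
    induction j with
    | zero => intro _; rw [Nat.cast_zero, add_zero]
    | succ j ih =>
      intro hj
      rw [← ih (by omega)]
      have h1 := hbt (c + 1 + (j : ZMod 10))
      have e1 : c + 1 + ((j + 1 : ℕ) : ZMod 10) = c + 1 + (j : ZMod 10) + 1 := by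
        rw [Nat.cast_add, Nat.cast_one, add_assoc, add_assoc, add_assoc]
      rw [e1]
      have n1 : f (c + 1 + (j : ZMod 10)) ≠ f c := by
        intro h2
        have h3 := hinj _ h2.symm
        have h4 : (1 : ZMod 10) + (j : ZMod 10) = 0 := by
          rw [add_assoc] at h3
          exact left_eq_add.1 h3
        have h5 : ((1 + j : ℕ) : ZMod 10) = 0 := by rw [Nat.cast_add, Nat.cast_one]; exact h4
        rw [ZMod.natCast_eq_zero_iff] at h5
        have := Nat.le_of_dvd (by omega) h5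
        omega
      have n2 : f (c + 1 + (j : ZMod 10) + 1) ≠ f c := by
        intro h2
        have h3 := hinj _ h2.symm
        have h4 : (1 : ZMod 10) + (j : ZMod 10) + 1 = 0 := by
          rw [add_assoc, add_assoc] at h3
          rw [add_assoc]
          exact left_eq_add.1 h3
        have h5 : ((1 + j + 1 : ℕ) : ZMod 10) = 0 := by
          rw [Nat.cast_add, Nat.cast_add, Nat.cast_one]; exact h4
        rw [ZMod.natCast_eq_zero_iff] at h5
        have := Nat.le_of_dvd (by omega) h5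
        omega
      omega
  have all : ∀ x : ZMod 10, x ≠ c → (f x < f c ↔ f (c + 1) < f c) := by
    intro x hx
    have h1 := key (x - c - 1).val (by
      have h2 := ZMod.val_lt (x - c - 1)
      have h3 : (x - c - 1).val ≠ 9 := by
        intro h4
        apply hx
        have h5 : x - c - 1 = 9 := by
          rw [← ZMod.natCast_zmod_val (x - c - 1), h4]
          rfl
        have h6 : x - c = 0 := by
          have h7 : x - c = 9 + 1 := by rw [← h5, sub_add_cancel]
          rw [h7]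
          decide
        exact sub_eq_zero.1 h6
      omega)
    rw [ZMod.natCast_zmod_val] at h1
    have e1 : c + 1 + (x - c - 1) = x := by ring
    rw [e1] at h1
    exact h1
  have h1 := all d (fun h => by rw [h] at hd; exact lt_irrefl _ hd)
  have h2 := all d' (fun h => by rw [h] at hd'; exact lt_irrefl _ hd')
  have h3 := h2.2 (h1.1 hd)
  omega

theorem MIS (hABS : ABS_stmt) : MIS_stmt := by
  intro H _ _ s sg hG A pos yp σ hP hσ hNT τ hτ x hx
  by_contra hcon
  push Not at hcon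
  have habs := hABS H s sg hG A pos yp σ hP τ hτ
  obtain ⟨h, c⟩ := x
  have hx' := hx
  obtain ⟨-, h0, h9, -, -⟩ := hx'
  change 0 < pos h c at h0
  change pos h c < 9 at h9
  obtain ⟨d, hd⟩ := hP.sur h 0 (by norm_num)
  obtain ⟨d', hd'⟩ := hP.sur h 9 (by norm_num)
  refine MIS_side (pos h) c (fun c' => hP.inj h c c') ?_ d d' (by omega) (by omega)
  intro c' hb
  obtain ⟨e, -, he, hcor⟩ := hcon c'
  change hvr e.1 = h at he
  obtain ⟨a, -, -, hax, hai, hgo⟩ := hτ (τ⁻¹ e)
  have ht : τ (τ⁻¹ e) = e := by rw [← Perm.mul_apply, mul_inv_cancel, Perm.one_apply]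
  rw [ht] at hgo
  have hst := habs.step (τ⁻¹ e)
  rw [ht] at hst
  change hvr e.1 = hvr (τ⁻¹ e).1 * s (labr pos (τ⁻¹ e).1) at hst
  rw [← hst, he] at hai
  have hex := exit_x e.2
  have hei := labr_pos hP hex
  rw [he] at hei hex
  apply MIS_between hP hNT h c hx a e.1 hgo hex
  rw [hai, ← hei]
  rcases hcor with ⟨h1, h2⟩ | ⟨h1, h2⟩
  · change labr pos (τ⁻¹ e).1 = c' at h1
    change labr pos e.1 = c' + 1 at h2
    rw [h1, h2]
    exact hb
  · change labr pos (τ⁻¹ e).1 = c' + 1 at h1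
    change labr pos e.1 = c' at h2
    rw [h1, h2]
    omega

end Pool.Agent.NTA
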